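import Pool.Agent.W262.TW.Stm
import Pool.Agent.W762.RK2.EXP4b
import Pool.Agent.W262.RK.Bas

/-!
# Project TW: Fourier expansion of the sign conditions (EXPA)
-/

set_option autoImplicit false

namespace Pool.Agent.W540.TW

open Finset Pool.Agent.W262.RK Pool.Agent.W262.TW Pool.Agent.W762.RK2

lemma rg_dvd {z Y d : ℕ} (h : Rg z d) (hY : d ≤ Y) : d ∣ PP z Y := by
  have h0 : d ≠ 0 := h.1.ne_zero
  rw [← Nat.prod_primeFactors_of_squarefree h.1]
  unfold PP
  refine Finset.prod_dvd_prod_of_subset _ _ _ fun p hp => ?_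
  have hp1 := Nat.prime_of_mem_primeFactors hp
  have hp2 := Nat.dvd_of_mem_primeFactors hp
  exact mem_PS.2 ⟨⟨h.2 p hp1 hp2, (Nat.le_of_dvd (Nat.pos_of_ne_zero h0) hp2).trans hY⟩, hp1⟩

lemma dvd_rg {z Y d : ℕ} (h : d ∣ PP z Y) : Rg z d :=
  ⟨(PP_squarefree z Y).squarefree_of_dvd h, fun _ hp hpd =>
    (mem_PS.1 ((prime_dvd_PP hp).1 (hpd.trans h))).1.1⟩

lemma mem_TT {ι I : Type} [Fintype ι] [DecidableEq ι] [DecidableEq I] (g : ι → I) (z Y V : ℕ)
    (e : ι → ℕ) :
    e ∈ TT g z Y V ↔ e ∈ Tup ι z Y ∧ (∏ a, e a ≤ Y ∧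
      ∀ i, V < ∏ a ∈ univ.filter (fun a => g a = i), e a) := by
  classical
  unfold TT
  rw [Finset.mem_filter, Fintype.mem_piFinset, Pool.Agent.W108.RK.mem_Tup]
  constructor
  · rintro ⟨h1, h2, h3, h4, h5⟩
    refine ⟨⟨fun i => rg_dvd (h2 i) (Finset.mem_Icc.1 (h1 i)).2, h3⟩, h4, fun i => ?_⟩
    refine (h5 i).trans_eq ?_
    congr
  · rintro ⟨⟨h1, h3⟩, h4, h5⟩
    have hpos : ∀ a, 0 < e a := fun a => Nat.pos_of_ne_zero (dvd_rg (h1 a)).1.ne_zero
    refine ⟨fun a => Finset.mem_Icc.2 ⟨hpos a, ?_⟩, fun a => dvd_rg (h1 a), h3, h4, fun i => ?_⟩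
    · exact (Nat.le_of_dvd (Finset.prod_pos fun i _ => hpos i)
        (Finset.dvd_prod_of_mem _ (Finset.mem_univ a))).trans h4
    · refine (h5 i).trans_eq ?_
      congr

section K

variable {K : Type} [Fintype K] [DecidableEq K] {z Y : ℕ}

/-- the size conditions -/
def SZ (Y V : ℕ) (D : K → ℕ) : Prop := ∏ i, D i ≤ Y ∧ ∀ i, V < D i

/-- the sign conditions -/
def SG (κ : K → ℤ) (Θ : K → ℕ → Finset (Finset K)) (D : K → ℕ) : Prop :=
  ∀ i, ∀ p ∈ (D i).primeFactors, ngs (fun k => κ k * D k) i p ∈ Θ i p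

lemma cnt_eq (z Y V : ℕ) (κ : K → ℤ) (Θ : K → ℕ → Finset (Finset K)) :
    (cnt z Y V κ Θ : ℝ) = ∑ D ∈ Tup K z Y, ind (SZ Y V D) * ind (SG κ Θ D) := by
  classical
  have h1 : ∀ D : K → ℕ, ind (SZ Y V D) * ind (SG κ Θ D) =
      if SZ Y V D ∧ SG κ Θ D then (1 : ℝ) else 0 := by
    intro D
    unfold ind
    by_cases h1 : SZ Y V D <;> by_cases h2 : SG κ Θ D <;> simp [h1, h2]
  rw [Finset.sum_congr rfl fun D _ => h1 D, ← Finset.sum_filter, Finset.sum_const, nsmul_eq_mul,
    mul_one]
  unfold cnt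
  congr 2
  ext D
  rw [Finset.mem_filter, Finset.mem_filter, Fintype.mem_piFinset, Pool.Agent.W108.RK.mem_Tup]
  constructor
  · rintro ⟨h1, h2, h3, h4, h5⟩
    exact ⟨⟨fun i => rg_dvd (h2 i).1 (Finset.mem_Icc.1 (h1 i)).2, h3⟩,
      ⟨h4, fun i => (h2 i).2⟩, h5⟩
  · rintro ⟨⟨h1, h3⟩, ⟨h4, h2⟩, h5⟩
    have hpos : ∀ a, 0 < D a := fun a => Nat.pos_of_ne_zero (dvd_rg (h1 a)).1.ne_zero
    refine ⟨fun a => Finset.mem_Icc.2 ⟨hpos a, ?_⟩, fun a => ⟨dvd_rg (h1 a), h2 a⟩, h3, h4, h5⟩
    exact (Nat.le_of_dvd (Finset.prod_pos fun i _ => hpos i)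
        (Finset.dvd_prod_of_mem _ (Finset.mem_univ a))).trans h4

/-- the local term -/
noncomputable def Tq (κ : K → ℤ) (Θ : K → ℕ → Finset (Finset K)) (l : Pr z Y → Option K)
    (p : Pr z Y) : ℝ :=
  (l p).elim 1 fun i => ind (ngs (fun k => κ k * Dl l k) i p ∈ Θ i p)

lemma ind_SG (κ : K → ℤ) (Θ : K → ℕ → Finset (Finset K)) (l : Pr z Y → Option K) :
    ind (SG κ Θ (Dl l)) = ∏ p, Tq κ Θ l p := by
  classical
  have h1 : SG κ Θ (Dl l) ↔ ∀ p : Pr z Y, ∀ i, l p = some i →
      ngs (fun k => κ k * Dl l k) i p ∈ Θ i p := by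
    unfold SG
    constructor
    · intro h p i hp
      refine h i p (Nat.mem_primeFactors.2 ⟨Pr_prime p, ?_, nb_ne_zero _⟩)
      unfold Dl
      rw [dvd_nb]
      exact decide_eq_true hp
    · intro h i q hq
      have hq' : q ∈ Ts fun p => decide (l p = some i) := by
        rw [← nb_pf]
        exact hq
      unfold Ts at hq'
      rw [Finset.mem_map] at hq'
      obtain ⟨p, hp, hpq⟩ := hq'
      have h2 := h p i (of_decide_eq_true (Finset.mem_filter.1 hp).2)
      have h3 : (p : ℕ) = q := hpq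
      rwa [h3] at h2
  by_cases h : SG κ Θ (Dl l)
  · rw [ind, if_pos h]
    symm
    refine Finset.prod_eq_one fun p _ => ?_
    unfold Tq
    cases hp : l p with
    | none => rfl
    | some i =>
      show ind _ = 1
      rw [ind, if_pos (h1.1 h p i hp)]
  · rw [ind, if_neg h]
    rw [h1] at h
    push Not at h
    obtain ⟨p, i, hp, h2⟩ := h
    symm
    refine Finset.prod_eq_zero (Finset.mem_univ p) ?_
    unfold Tq
    rw [hp]
    show ind _ = 0
    rw [ind, if_neg h2]

lemma prod_mf {ι : Type} [Fintype ι] [DecidableEq ι] (b : ι → ℕ → ℝ) (m : Pr z Y → Option ι) :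
    ∏ a, mf (b a) (Dl m a) = ∏ p : Pr z Y, (m p).elim 1 fun a => b a p := by
  have h1 : ∀ i, mf (b i) (Dl m i) = ∏ p : Pr z Y, if m p = some i then b i p else 1 := by
    intro i
    unfold mf Dl
    rw [prod_pf _ fun p : ℕ => b i p]
    simp only [decide_eq_true_eq]
  rw [Finset.prod_congr rfl fun i _ => h1 i, Finset.prod_comm]
  refine Finset.prod_congr rfl fun p _ => ?_
  cases h : m p with
  | none => simp
  | some j => simp

/-- forget the set -/
def fo (m : Pr z Y → Option (K × Finset K)) (p : Pr z Y) : Option K := (m p).map Prod.fst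

lemma Dl_fo (m : Pr z Y → Option (K × Finset K)) (i : K) :
    ∏ a ∈ univ.filter (fun a : K × Finset K => a.1 = i), Dl m a = Dl (fo m) i := by
  unfold Dl nb
  rw [Finset.prod_comm]
  refine Finset.prod_congr rfl fun p _ => ?_
  cases h : m p with
  | none => simp [fo, h]
  | some j =>
    have hf : fo m p = some j.1 := by unfold fo; rw [h]; rfl
    show (∏ x ∈ univ.filter (fun a : K × Finset K => a.1 = i),
      if decide (m p = some x) = true then (p : ℕ) else 1) =
      if decide (fo m p = some i) = true then (p : ℕ) else 1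
    rw [hf]
    simp only [h]
    by_cases hj : j.1 = i
    · rw [Finset.prod_eq_single_of_mem j (Finset.mem_filter.2 ⟨Finset.mem_univ _, hj⟩)]
      · rw [if_pos (decide_eq_true rfl), if_pos (decide_eq_true (by rw [hj]))]
      · intro b _ hb
        rw [if_neg]
        intro h'
        exact hb (Option.some.inj (of_decide_eq_true h')).symm
    · rw [if_neg (fun h' => hj (Option.some.inj (of_decide_eq_true h')))]
      refine Finset.prod_eq_one fun b hb => ?_
      have hb' := (Finset.mem_filter.1 hb).2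
      rw [if_neg]
      intro h'
      have h2 := Option.some.inj (of_decide_eq_true h')
      exact hj (by rw [h2]; exact hb')

lemma SZ_fo (V : ℕ) (m : Pr z Y → Option (K × Finset K)) :
    SZ Y V (Dl (fo m)) ↔ (∏ a, Dl m a ≤ Y ∧
      ∀ i, V < ∏ a ∈ univ.filter (fun a : K × Finset K => a.1 = i), Dl m a) := by
  unfold SZ
  refine and_congr ?_ (forall_congr' fun i => ?_)
  · rw [prod_Dl, prod_Dl]
    have : (fun p => (fo m p).isSome) = fun p => (m p).isSome := by
      funext p
      unfold fo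
      cases m p <;> rfl
    rw [this]
  · rw [Dl_fo]

/-- the local factor -/
noncomputable def Gq (κ : K → ℤ) (Θ : K → ℕ → Finset (Finset K)) (l : Pr z Y → Option K)
    (p : Pr z Y) (x : Option (K × Finset K)) : ℝ :=
  x.elim 1 fun a => bb Θ a p * ∏ k ∈ a.2.erase a.1, Jr (κ k * Dl l k) p

lemma Jr_mul_left' (a b : ℤ) (n : ℕ) : Jr (a * b) n = Jr a n * Jr b n := by
  unfold Jr
  rw [jacobiSym.mul_left]
  push_cast
  rfl

lemma Jr_prod_left' {α : Type} (s : Finset α) (f : α → ℤ) (n : ℕ) :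
    Jr (∏ a ∈ s, f a) n = ∏ a ∈ s, Jr (f a) n := by
  classical
  induction s using Finset.induction_on with
  | empty => simp [Jr]
  | insert a s ha ih => rw [Finset.prod_insert ha, Finset.prod_insert ha, Jr_mul_left', ih]

lemma rhs_term (κ : K → ℤ) (Θ : K → ℕ → Finset (Finset K)) (m : Pr z Y → Option (K × Finset K)) :
    (∏ a, mf (bb Θ a) (Dl m a)) * Pool.Agent.W262.RK.Sym LK (κK κ) (Dl m) =
      ∏ p, Gq κ Θ (fo m) p (m p) := by
  rw [prod_mf, Sym_Dl, ← Finset.prod_mul_distrib, ← Finset.prod_mul_distrib]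
  refine Finset.prod_congr rfl fun p _ => ?_
  cases hl : m p with
  | none =>
    have h0 : ∀ q, Pool.Agent.W762.RK2.lk LK (m q) none = false := by
      intro q
      cases m q <;> rfl
    simp [h0, Gq]
  | some a =>
    have h2 : ∏ q : Pr z Y, (if Pool.Agent.W762.RK2.lk LK (m q) (some a) = true then
        Jr (q : ℕ) p else 1) = ∏ k ∈ a.2.erase a.1, Jr (Dl (fo m) k) p := by
      have h3 : ∀ k ∈ a.2.erase a.1, Jr (Dl (fo m) k) p =
          ∏ q : Pr z Y, if fo m q = some k then Jr (q : ℕ) p else 1 := by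
        intro k _
        unfold Dl
        rw [Jr_nb_left]
        simp only [decide_eq_true_eq]
      rw [Finset.prod_congr rfl h3, Finset.prod_comm]
      refine Finset.prod_congr rfl fun q _ => ?_
      cases hq : m q with
      | none => simp [Pool.Agent.W762.RK2.lk, fo, hq]
      | some b =>
        have h4 : Pool.Agent.W762.RK2.lk LK (some b) (some a) = decide (b.1 ∈ a.2 ∧ b.1 ≠ a.1) :=
          rfl
        rw [h4]
        have h5 : fo m q = some b.1 := by unfold fo; rw [hq]; rfl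
        rw [h5]
        by_cases hb : b.1 ∈ a.2 ∧ b.1 ≠ a.1
        · rw [if_pos (decide_eq_true hb), Finset.prod_eq_single b.1]
          · simp
          · intro k _ hk
            have : ¬ b.1 = k := fun h => hk h.symm
            simp [this]
          · intro h
            exact absurd (Finset.mem_erase.2 ⟨hb.2, hb.1⟩) h
        · rw [if_neg (by simpa using hb)]
          symm
          refine Finset.prod_eq_one fun k hk => ?_
          rw [if_neg]
          intro h
          have h6 : b.1 = k := Option.some.inj h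
          rw [← h6] at hk
          exact hb ⟨(Finset.mem_erase.1 hk).2, (Finset.mem_erase.1 hk).1⟩
    rw [h2]
    simp only [Gq, Option.elim]
    unfold κK
    have h7 : ∏ k ∈ a.2.erase a.1, Jr (κ k * Dl (fo m) k) p =
        (∏ k ∈ a.2.erase a.1, Jr (κ k) p) * ∏ k ∈ a.2.erase a.1, Jr (Dl (fo m) k) p := by
      rw [← Finset.prod_mul_distrib]
      refine Finset.prod_congr rfl fun k _ => ?_
      rw [Jr_mul_left']
    rw [Jr_prod_left', h7]
    ring

lemma fourier (E : Finset K) (N N0 : Finset K) (hN : N ⊆ E) (hN0 : N0 ⊆ E) :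
    ∑ S ∈ E.powerset, (-1 : ℝ) ^ (S ∩ N).card * (-1 : ℝ) ^ (S ∩ N0).card =
      if N = N0 then 2 ^ E.card else 0 := by
  have h1 : ∀ S ∈ E.powerset, (-1 : ℝ) ^ (S ∩ N).card * (-1 : ℝ) ^ (S ∩ N0).card =
      ∏ k ∈ S, ((if k ∈ N then (-1 : ℝ) else 1) * (if k ∈ N0 then (-1 : ℝ) else 1)) := by
    intro S _
    rw [Finset.prod_mul_distrib, ← Finset.prod_filter, ← Finset.prod_filter, Finset.prod_const,
      Finset.prod_const, Finset.filter_mem_eq_inter, Finset.filter_mem_eq_inter]
  rw [Finset.sum_congr rfl h1, ← Finset.prod_one_add]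
  split_ifs with h
  · subst h
    rw [← Finset.prod_const]
    refine Finset.prod_congr rfl fun k _ => ?_
    split_ifs <;> norm_num
  · have h2 : ∃ k, ¬ (k ∈ N ↔ k ∈ N0) := by
      by_contra hc
      push Not at hc
      exact h (Finset.ext hc)
    obtain ⟨k, hk⟩ := h2
    refine Finset.prod_eq_zero (i := k) ?_ ?_
    · by_contra hkE
      exact hk ⟨fun h => absurd (hN h) hkE, fun h => absurd (hN0 h) hkE⟩
    · by_cases h3 : k ∈ N <;> by_cases h4 : k ∈ N0 <;> simp [h3, h4] at hk ⊢

lemma loc (i : K) (p : ℕ) (Θ : K → ℕ → Finset (Finset K)) (hΘ : Θ i p ⊆ (univ.erase i).powerset)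
    (a : K → ℤ) (ha : ∀ k, k ≠ i → jacobiSym (a k) p = 1 ∨ jacobiSym (a k) p = -1) :
    ∑ S : Finset K, bb Θ (i, S) p * ∏ k ∈ S.erase i, Jr (a k) p = ind (ngs a i p ∈ Θ i p) := by
  classical
  set N0 := ngs a i p with hN0
  have hN0s : N0 ⊆ univ.erase i := by
    intro k hk
    rw [hN0] at hk
    unfold ngs at hk
    exact Finset.mem_erase.2 ⟨(Finset.mem_filter.1 hk).2.1, Finset.mem_univ _⟩
  have h1 : ∀ S : Finset K, bb Θ (i, S) p * ∏ k ∈ S.erase i, Jr (a k) p =
      if S ∈ (univ.erase i).powerset then (∑ N ∈ Θ i p, (-1 : ℝ) ^ (S ∩ N).card *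
        (-1 : ℝ) ^ (S ∩ N0).card) / 2 ^ (Fintype.card K - 1) else 0 := by
    intro S
    unfold bb
    by_cases hS : i ∈ S
    · rw [if_pos hS, zero_mul, if_neg]
      intro h
      exact absurd ((Finset.mem_powerset.1 h) hS) (Finset.notMem_erase i _)
    · rw [if_neg hS, if_pos]
      · rw [Finset.erase_eq_of_notMem hS]
        have h2 : ∏ k ∈ S, Jr (a k) p = (-1 : ℝ) ^ (S ∩ N0).card := by
          rw [← Finset.prod_const, ← Finset.filter_mem_eq_inter, Finset.prod_filter]
          refine Finset.prod_congr rfl fun k hk => ?_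
          have hki : k ≠ i := fun h => hS (h ▸ hk)
          have hm : k ∈ N0 ↔ jacobiSym (a k) p = -1 := by
            rw [hN0]
            unfold ngs
            simp [hki]
          unfold Jr
          rcases ha k hki with h | h
          · rw [if_neg]
            · rw [h]; norm_num
            · rw [hm, h]; norm_num
          · rw [if_pos (hm.2 h), h]; norm_num
        rw [h2, ← Finset.sum_mul]
        ring
      · exact Finset.mem_powerset.2 fun k hk => Finset.mem_erase.2
          ⟨fun h => hS (h ▸ hk), Finset.mem_univ _⟩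
  rw [Finset.sum_congr rfl fun S _ => h1 S, ← Finset.sum_filter, Finset.filter_mem_eq_inter,
    Finset.univ_inter, ← Finset.sum_div, Finset.sum_comm]
  have h3 : ∀ N ∈ Θ i p, ∑ S ∈ (univ.erase i).powerset, (-1 : ℝ) ^ (S ∩ N).card *
      (-1 : ℝ) ^ (S ∩ N0).card = if N = N0 then 2 ^ (Fintype.card K - 1) else 0 := by
    intro N hN
    rw [fourier _ N N0 (Finset.mem_powerset.1 (hΘ hN)) hN0s, Finset.card_erase_of_mem
      (Finset.mem_univ _), Finset.card_univ]
  rw [Finset.sum_congr rfl h3, Finset.sum_ite_eq' (Θ i p) N0]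
  unfold ind
  split_ifs
  · exact div_self (by positivity)
  · simp

lemma sum_Gq (κ : K → ℤ) (Θ : K → ℕ → Finset (Finset K)) (l : Pr z Y → Option K) (p : Pr z Y)
    (hκ : ∀ k, ¬ ((p : ℕ) : ℤ) ∣ κ k) (hΘ : ∀ i, Θ i p ⊆ (univ.erase i).powerset) :
    ∑ x ∈ univ.filter (fun x : Option (K × Finset K) => x.map Prod.fst = l p), Gq κ Θ l p x =
      Tq κ Θ l p := by
  rw [Finset.sum_filter, Fintype.sum_option]
  unfold Tq
  cases hx : l p with
  | none => simp [Gq]
  | some i =>
    rw [if_neg (by simp), zero_add, Fintype.sum_prod_type, Finset.sum_eq_single i]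
    · show _ = ind (ngs (fun k => κ k * Dl l k) i p ∈ Θ i p)
      rw [← loc i p Θ (hΘ i)]
      · refine Finset.sum_congr rfl fun S _ => ?_
        rw [if_pos (by simp)]
        rfl
      · intro k hk
        apply jacobiSym.eq_one_or_neg_one
        rw [Int.gcd_comm]
        have hp := Pr_prime p
        have h1 : ¬ ((p : ℕ) : ℤ) ∣ κ k * Dl l k := by
          intro h
          rcases (Nat.prime_iff_prime_int.1 hp).dvd_or_dvd h with h | h
          · exact hκ k h
          · rw [Int.natCast_dvd_natCast] at h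
            unfold Dl at h
            rw [dvd_nb] at h
            have h2 := of_decide_eq_true h
            rw [hx] at h2
            exact hk (Option.some.inj h2).symm
        have h3 : ¬ (p : ℕ) ∣ (κ k * Dl l k).natAbs := by
          rwa [← Int.natCast_dvd]
        exact hp.coprime_iff_not_dvd.mpr h3
    · intro j _ hj
      refine Finset.sum_eq_zero fun S _ => ?_
      rw [if_neg]
      simp [hj]
    · intro h
      exact absurd (Finset.mem_univ _) h

end K

theorem expa : Pool.Agent.W262.TW.EXPA := by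
  intro K _ _ z Y V κ Θ hz hκ hΘ
  classical
  have hR : ∑ e ∈ TT (Prod.fst : K × Finset K → K) z Y V,
      (∏ a, mf (bb Θ a) (e a)) * Sym LK (κK κ) e =
      ∑ e ∈ Tup (K × Finset K) z Y, ind (∏ a, e a ≤ Y ∧
      ∀ i, V < ∏ a ∈ univ.filter (fun a : K × Finset K => a.1 = i), e a) *
      ((∏ a, mf (bb Θ a) (e a)) * Sym LK (κK κ) e) := by
    have h1 : TT (Prod.fst : K × Finset K → K) z Y V = (Tup (K × Finset K) z Y).filter
        (fun e => ∏ a, e a ≤ Y ∧
          ∀ i, V < ∏ a ∈ univ.filter (fun a : K × Finset K => a.1 = i), e a) := by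
      ext e
      rw [mem_TT, Finset.mem_filter]
    rw [h1, Finset.sum_filter]
    refine Finset.sum_congr rfl fun e _ => ?_
    unfold ind
    split_ifs <;> simp
  rw [hR, cnt_eq, sum_Tup, sum_Tup, ← Finset.sum_fiberwise univ
    (fun (m : Pr z Y → Option (K × Finset K)) => fo m)]
  refine Finset.sum_congr rfl fun l _ => ?_
  have h1 : (univ.filter fun m : Pr z Y → Option (K × Finset K) => fo m = l) =
      Fintype.piFinset (fun p => univ.filter
        (fun x : Option (K × Finset K) => x.map Prod.fst = l p)) := by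
    ext m
    simp only [Finset.mem_filter, Finset.mem_univ, true_and, Fintype.mem_piFinset, funext_iff]
    rfl
  have hk : ∀ p : Pr z Y, ∀ k, ¬ ((p : ℕ) : ℤ) ∣ κ k := by
    intro p k hd
    have h2 := (mem_PS.1 p.2).1.1
    have h3 := hκ k p (Pr_prime p) hd
    omega
  rw [ind_SG, Finset.prod_congr rfl fun p _ => (sum_Gq κ Θ l p (hk p) (fun i => hΘ i p)).symm,
    Finset.prod_univ_sum, ← h1, Finset.mul_sum]
  refine Finset.sum_congr rfl fun m hm => ?_
  have hm' : fo m = l := (Finset.mem_filter.1 hm).2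
  rw [rhs_term, hm']
  congr 1
  rw [← hm']
  exact congrArg ind (propext (SZ_fo V m))

end Pool.Agent.W540.TW
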