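import Pool.Agent.W682.TW.Stm2

/-!
# Project TW, part EFF: existence and minimum property of the effective tensor
-/

set_option autoImplicit false

open scoped BigOperators Topology InnerProductSpace
open MeasureTheory

namespace Pool.Agent.W540.TW.EFF

open Pool.Agent.W682.TW

/-! ### Hilbert space part -/

theorem hilb {H : Type*} [NormedAddCommGroup H] [InnerProductSpace ℝ H] [CompleteSpace H]
    (T : H →L[ℝ] H) (c : ℝ) (hc : 0 < c) (hT : ∀ u, c * ‖u‖ * ‖u‖ ≤ ⟪T u, u⟫_ℝ)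
    (K : Submodule ℝ H) (hK : IsClosed (K : Set H)) :
    ∃ W : H →ₗ[ℝ] H, ∀ u, W u ∈ K ∧ ∀ v ∈ K, ⟪T (u + W u), v⟫_ℝ = 0 := by
  have hcompl : CompleteSpace K := hK.completeSpace_coe
  let B : K →L[ℝ] K →L[ℝ] ℝ := ((innerSL ℝ).comp T).bilinearComp K.subtypeL K.subtypeL
  have hB : ∀ u v : K, B u v = ⟪T (u : H), (v : H)⟫_ℝ := fun u v => rfl
  have hco : IsCoercive B := ⟨c, hc, fun u => hT u⟩
  let e := hco.continuousLinearEquivOfBilin
  have he : ∀ u v : K, ⟪e u, v⟫_ℝ = B u v := fun u v => hco.continuousLinearEquivOfBilin_apply u v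
  let P : H →L[ℝ] K := K.orthogonalProjectionOnto
  have hP : ∀ (y : H) (v : K), ⟪P y, v⟫_ℝ = ⟪y, (v : H)⟫_ℝ := fun y v =>
    Submodule.inner_orthogonalProjectionOnto_eq_of_mem_right v y
  let W : H →ₗ[ℝ] H := -((K.subtype ∘ₗ (e.symm : K →ₗ[ℝ] K)) ∘ₗ
    ((P : H →ₗ[ℝ] K) ∘ₗ (T : H →ₗ[ℝ] H)))
  have hW : ∀ u, W u = ((-(e.symm (P (T u))) : K) : H) := fun u => rfl
  refine ⟨W, fun u => ⟨?_, fun v hv => ?_⟩⟩
  · rw [hW]
    exact Submodule.coe_mem _
  · rw [map_add, inner_add_left, hW]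
    have h1 := hB (-(e.symm (P (T u)))) ⟨v, hv⟩
    have h2 := he (-(e.symm (P (T u)))) ⟨v, hv⟩
    rw [map_neg, e.apply_symm_apply, h1, inner_neg_left, hP] at h2
    have h3 : ⟪T ((-(e.symm (P (T u))) : K) : H), v⟫_ℝ = -⟪T u, v⟫_ℝ := h2.symm
    rw [h3]
    ring

/-! ### matrices as vectors -/

variable {m : ℕ}

/-- fibre -/
abbrev VV (m : ℕ) := EuclideanSpace ℝ (Fin 2 × Fin m)

/-- matrices as Euclidean vectors -/
noncomputable def tv : Mt m ≃ₗ[ℝ] VV m where
  toFun A := WithLp.toLp 2 (fun p => A p.1 p.2)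
  invFun v := Matrix.of fun i α => v (i, α)
  map_add' _ _ := rfl
  map_smul' _ _ := rfl
  left_inv _ := rfl
  right_inv _ := rfl

theorem tv_apply (A : Mt m) (i : Fin 2) (α : Fin m) : tv A (i, α) = A i α := rfl

theorem tv_symm_apply (v : VV m) (i : Fin 2) (α : Fin m) : tv.symm v i α = v (i, α) := rfl

theorem inner_tv (A B : Mt m) : ⟪tv A, tv B⟫_ℝ = tp A B := by
  unfold tp
  rw [PiLp.inner_apply, Fintype.sum_prod_type, Matrix.trace]
  refine Finset.sum_congr rfl fun i _ => ?_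
  rw [Matrix.diag_apply, Matrix.mul_apply]
  refine Finset.sum_congr rfl fun α _ => ?_
  rw [tv_apply, tv_apply, Matrix.transpose_apply]
  simp [mul_comm]

/-- linear maps on the fibre -/
noncomputable def cL (L : Mt m →ₗ[ℝ] Mt m) : VV m →L[ℝ] VV m :=
  LinearMap.toContinuousLinearMap ((tv (m := m)).toLinearMap ∘ₗ L ∘ₗ (tv (m := m)).symm.toLinearMap)

theorem cL_apply (L : Mt m →ₗ[ℝ] Mt m) (v : VV m) : cL L v = tv (L (tv.symm v)) := rfl

theorem cL_symm {L : Mt m →ₗ[ℝ] Mt m} (hL : SPD L) (v w : VV m) :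
    ⟪cL L v, w⟫_ℝ = ⟪v, cL L w⟫_ℝ := by
  rw [cL_apply, cL_apply]
  obtain ⟨A, rfl⟩ := tv.surjective v
  obtain ⟨B, rfl⟩ := tv.surjective w
  rw [tv.symm_apply_apply, tv.symm_apply_apply, inner_tv, inner_tv, hL.1]

theorem cL_coer {L : Mt m →ₗ[ℝ] Mt m} (hL : SPD L) :
    ∃ c : ℝ, 0 < c ∧ ∀ v : VV m, c * ‖v‖ * ‖v‖ ≤ ⟪cL L v, v⟫_ℝ := by
  have hpos : ∀ v : VV m, v ≠ 0 → 0 < ⟪cL L v, v⟫_ℝ := by
    intro v hv
    obtain ⟨A, rfl⟩ := tv.surjective v
    have hA : A ≠ 0 := fun h => hv (by rw [h, map_zero])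
    rw [cL_apply, tv.symm_apply_apply, real_inner_comm, inner_tv]
    exact hL.2 A hA
  have hcont : Continuous (fun v : VV m => ⟪cL L v, v⟫_ℝ) :=
    (cL L).continuous.inner continuous_id
  have hcomp : IsCompact (Metric.sphere (0 : VV m) 1) := isCompact_sphere _ _
  by_cases hne : (Metric.sphere (0 : VV m) 1).Nonempty
  · obtain ⟨v₀, hv₀, hmin⟩ := hcomp.exists_isMinOn hne hcont.continuousOn
    have hv₀1 : ‖v₀‖ = 1 := by simpa using hv₀
    have hv₀0 : v₀ ≠ 0 := by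
      intro h
      rw [h, norm_zero] at hv₀1
      exact zero_ne_one hv₀1
    refine ⟨⟪cL L v₀, v₀⟫_ℝ, hpos v₀ hv₀0, fun v => ?_⟩
    by_cases hv : v = 0
    · rw [hv]
      simp
    · have hn : 0 < ‖v‖ := norm_pos_iff.2 hv
      have h1 : ‖v‖⁻¹ • v ∈ Metric.sphere (0 : VV m) 1 := by
        rw [mem_sphere_zero_iff_norm, norm_smul, norm_inv, norm_norm, inv_mul_cancel₀ hn.ne']
      have h2 := hmin h1
      simp only [Set.mem_ofPred_eq] at h2
      rw [map_smul, real_inner_smul_left, real_inner_smul_right] at h2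
      have h3 : ‖v‖⁻¹ * (‖v‖⁻¹ * ⟪cL L v, v⟫_ℝ) = ⟪cL L v, v⟫_ℝ / (‖v‖ * ‖v‖) := by
        field_simp
      rw [h3, le_div_iff₀ (mul_pos hn hn)] at h2
      linarith
  · refine ⟨1, one_pos, fun v => ?_⟩
    by_cases hv : v = 0
    · rw [hv]
      simp
    · exfalso
      apply hne
      have hn : 0 < ‖v‖ := norm_pos_iff.2 hv
      exact ⟨‖v‖⁻¹ • v, by
        rw [mem_sphere_zero_iff_norm, norm_smul, norm_inv, norm_norm, inv_mul_cancel₀ hn.ne']⟩

/-! ### the operator -/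

/-- the measure -/
noncomputable def mu : Measure (Fin 2 → ℝ) := volume.restrict cube

theorem cube_compact : IsCompact cube := isCompact_univ_pi fun _ => isCompact_Icc

theorem cube_meas : MeasurableSet cube := cube_compact.isClosed.measurableSet

instance : IsFiniteMeasure mu := ⟨by
  unfold mu
  rw [Measure.restrict_apply_univ]
  exact cube_compact.measure_lt_top⟩

section

variable (L₁ L₂ : Mt m →ₗ[ℝ] Mt m) (S : Set (Fin 2 → ℝ))

noncomputable def Nf (x : Fin 2 → ℝ) : VV m →L[ℝ] VV m := cL (loc L₁ L₂ S x)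

theorem Nf_pos {x : Fin 2 → ℝ} (hx : x ∈ S) : Nf L₁ L₂ S x = cL L₁ := by
  unfold Nf loc
  rw [if_pos hx]

theorem Nf_neg {x : Fin 2 → ℝ} (hx : x ∉ S) : Nf L₁ L₂ S x = cL L₂ := by
  unfold Nf loc
  rw [if_neg hx]

theorem Nf_norm (x : Fin 2 → ℝ) (v : VV m) :
    ‖Nf L₁ L₂ S x v‖ ≤ (‖cL L₁‖ + ‖cL L₂‖) * ‖v‖ := by
  by_cases hx : x ∈ S
  · rw [Nf_pos L₁ L₂ S hx]
    refine ((cL L₁).le_opNorm v).trans ?_
    exact mul_le_mul_of_nonneg_right (le_add_of_nonneg_right (norm_nonneg _)) (norm_nonneg _)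
  · rw [Nf_neg L₁ L₂ S hx]
    refine ((cL L₂).le_opNorm v).trans ?_
    exact mul_le_mul_of_nonneg_right (le_add_of_nonneg_left (norm_nonneg _)) (norm_nonneg _)

variable {S}

theorem memT (hS : MeasurableSet S) (f : Lp (VV m) 2 mu) :
    MemLp (fun x => Nf L₁ L₂ S x (f x)) 2 mu := by
  classical
  have hf := Lp.aestronglyMeasurable f
  have h1 : (fun x => Nf L₁ L₂ S x (f x)) =
      S.piecewise (fun x => cL L₁ (f x)) (fun x => cL L₂ (f x)) := by
    funext x
    by_cases hx : x ∈ S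
    · rw [Set.piecewise_eq_of_mem _ _ _ hx, Nf_pos L₁ L₂ S hx]
    · rw [Set.piecewise_eq_of_notMem _ _ _ hx, Nf_neg L₁ L₂ S hx]
  have hm : AEStronglyMeasurable (fun x => Nf L₁ L₂ S x (f x)) mu := by
    rw [h1]
    exact AEStronglyMeasurable.piecewise hS
      (((cL L₁).continuous.comp_aestronglyMeasurable hf).restrict)
      (((cL L₂).continuous.comp_aestronglyMeasurable hf).restrict)
  exact MemLp.of_le_mul (Lp.memLp f) hm (Filter.Eventually.of_forall fun x => Nf_norm L₁ L₂ S x _)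

/-- the operator on `L²` -/
noncomputable def TT (hS : MeasurableSet S) : Lp (VV m) 2 mu →L[ℝ] Lp (VV m) 2 mu :=
  LinearMap.mkContinuous
    { toFun := fun f => (memT L₁ L₂ hS f).toLp _
      map_add' := by
        intro f g
        rw [← MemLp.toLp_add]
        refine (MemLp.toLp_eq_toLp_iff _ _).2 ?_
        filter_upwards [Lp.coeFn_add f g] with x hx
        rw [hx]
        simp only [Pi.add_apply, map_add]
      map_smul' := by
        intro c f
        rw [RingHom.id_apply, ← MemLp.toLp_const_smul]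
        refine (MemLp.toLp_eq_toLp_iff _ _).2 ?_
        filter_upwards [Lp.coeFn_smul c f] with x hx
        rw [hx]
        simp only [Pi.smul_apply, map_smul] } (‖cL L₁‖ + ‖cL L₂‖) (by
      intro f
      refine Lp.norm_le_mul_norm_of_ae_le_mul ?_
      filter_upwards [(memT L₁ L₂ hS f).coeFn_toLp] with x hx
      simp only [LinearMap.coe_mk, AddHom.coe_mk]
      rw [hx]
      exact Nf_norm L₁ L₂ S x _)

theorem TT_coe (hS : MeasurableSet S) (f : Lp (VV m) 2 mu) :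
    TT L₁ L₂ hS f =ᵐ[mu] fun x => Nf L₁ L₂ S x (f x) := (memT L₁ L₂ hS f).coeFn_toLp

end

/-! ### gradients -/

theorem gr_cont {u : (Fin 2 → ℝ) → (Fin m → ℝ)} (hu : Adm u) :
    Continuous (fun x => tv (gr u x)) := by
  have h1 : Continuous (fderiv ℝ u) := hu.1.continuous_fderiv (by simp)
  have h2 : Continuous (fun x => gr u x) := by
    unfold gr
    refine continuous_matrix fun i α => ?_
    have h3 : Continuous (fun x => fderiv ℝ u x (Pi.single i (1 : ℝ))) := h1.clm_apply continuous_const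
    exact (continuous_apply α).comp h3
  exact (LinearMap.continuous_of_finiteDimensional (tv (m := m)).toLinearMap).comp h2

theorem gr_memLp {u : (Fin 2 → ℝ) → (Fin m → ℝ)} (hu : Adm u) :
    MemLp (fun x => tv (gr u x)) 2 mu := by
  have hc := gr_cont hu
  obtain ⟨C, hC⟩ := (cube_compact.image hc).isBounded.exists_norm_le
  refine MemLp.of_bound hc.aestronglyMeasurable C ?_
  unfold mu
  refine (ae_restrict_iff' cube_meas).2 (Filter.Eventually.of_forall fun x hx => ?_)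
  exact hC _ ⟨x, hx, rfl⟩

theorem gr_add {u v : (Fin 2 → ℝ) → (Fin m → ℝ)} (hu : Adm u) (hv : Adm v) (x : Fin 2 → ℝ) :
    gr (fun y => u y + v y) x = gr u x + gr v x := by
  have h1 : DifferentiableAt ℝ u x := hu.1.differentiable (by simp) x
  have h2 : DifferentiableAt ℝ v x := hv.1.differentiable (by simp) x
  ext i α
  simp only [gr, Matrix.of_apply, Matrix.add_apply]
  rw [fderiv_fun_add h1 h2]
  rfl

theorem gr_smul {u : (Fin 2 → ℝ) → (Fin m → ℝ)} (hu : Adm u) (c : ℝ) (x : Fin 2 → ℝ) :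
    gr (fun y => c • u y) x = c • gr u x := by
  have h1 : DifferentiableAt ℝ u x := hu.1.differentiable (by simp) x
  ext i α
  simp only [gr, Matrix.of_apply, Matrix.smul_apply]
  rw [fderiv_fun_const_smul h1]
  rfl

theorem adm_add {u v : (Fin 2 → ℝ) → (Fin m → ℝ)} (hu : Adm u) (hv : Adm v) :
    Adm (fun y => u y + v y) :=
  ⟨hu.1.add hv.1, fun x z => by simp only [hu.2, hv.2]⟩

theorem adm_smul {u : (Fin 2 → ℝ) → (Fin m → ℝ)} (hu : Adm u) (c : ℝ) :
    Adm (fun y => c • u y) :=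
  ⟨hu.1.const_smul c, fun x z => by simp only [hu.2]⟩

theorem adm_zero : Adm (fun _ : Fin 2 → ℝ => (0 : Fin m → ℝ)) :=
  ⟨contDiff_const, fun _ _ => rfl⟩

theorem gr_zero (x : Fin 2 → ℝ) : gr (fun _ : Fin 2 → ℝ => (0 : Fin m → ℝ)) x = 0 := by
  ext i α
  simp only [gr, Matrix.of_apply]
  rw [fderiv_fun_const]
  rfl

/-- the subspace of gradients -/
noncomputable def G0 (m : ℕ) : Submodule ℝ (Lp (VV m) 2 mu) where
  carrier := {h | ∃ u, Adm u ∧ h =ᵐ[mu] fun x => tv (gr u x)}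
  add_mem' := by
    rintro a b ⟨u, hu, ha⟩ ⟨v, hv, hb⟩
    refine ⟨fun y => u y + v y, adm_add hu hv, ?_⟩
    filter_upwards [Lp.coeFn_add a b, ha, hb] with x h1 h2 h3
    rw [h1, gr_add hu hv, map_add, ← h2, ← h3]
    rfl
  zero_mem' := by
    refine ⟨_, adm_zero, ?_⟩
    filter_upwards [Lp.coeFn_zero (VV m) 2 mu] with x h1
    rw [h1, gr_zero, map_zero]
    rfl
  smul_mem' := by
    rintro c a ⟨u, hu, ha⟩
    refine ⟨fun y => c • u y, adm_smul hu c, ?_⟩
    filter_upwards [Lp.coeFn_smul c a, ha] with x h1 h2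
    rw [h1, gr_smul hu, map_smul, ← h2]
    rfl

theorem mem_G0 {u : (Fin 2 → ℝ) → (Fin m → ℝ)} (hu : Adm u) : (gr_memLp hu).toLp _ ∈ G0 m :=
  ⟨u, hu, (gr_memLp hu).coeFn_toLp⟩

/-- constants -/
noncomputable def cs : Mt m →ₗ[ℝ] Lp (VV m) 2 mu :=
  (Lp.constₗ 2 mu ℝ) ∘ₗ (tv (m := m)).toLinearMap

theorem cs_coe (A : Mt m) : cs A =ᵐ[mu] fun _ => tv A := Lp.coeFn_const 2 mu (tv A)

theorem main : S_EFF := by
  classical
  intro m L₁ L₂ S h₁ h₂ hS
  set T := TT L₁ L₂ hS.1 with hTdef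
  -- symmetry and coercivity
  have hTsymm : ∀ f g, ⟪T f, g⟫_ℝ = ⟪f, T g⟫_ℝ := by
    intro f g
    rw [L2.inner_def, L2.inner_def]
    refine integral_congr_ae ?_
    filter_upwards [TT_coe L₁ L₂ hS.1 f, TT_coe L₁ L₂ hS.1 g] with x hf hg
    rw [hf, hg]
    by_cases hx : x ∈ S
    · rw [Nf_pos L₁ L₂ S hx]
      exact cL_symm h₁ _ _
    · rw [Nf_neg L₁ L₂ S hx]
      exact cL_symm h₂ _ _
  obtain ⟨c₁, hc₁, hco₁⟩ := cL_coer h₁
  obtain ⟨c₂, hc₂, hco₂⟩ := cL_coer h₂
  have hTco : ∀ f, min c₁ c₂ * ‖f‖ * ‖f‖ ≤ ⟪T f, f⟫_ℝ := by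
    intro f
    have e1 : min c₁ c₂ * ‖f‖ * ‖f‖ = ∫ x, min c₁ c₂ * ⟪f x, f x⟫_ℝ ∂mu := by
      rw [integral_const_mul, ← L2.inner_def, real_inner_self_eq_norm_mul_norm]
      ring
    rw [e1, L2.inner_def]
    refine integral_mono_ae ((L2.integrable_inner f f).const_mul _)
      (L2.integrable_inner (T f) f) ?_
    filter_upwards [TT_coe L₁ L₂ hS.1 f] with x hf
    rw [hf, real_inner_self_eq_norm_mul_norm, ← mul_assoc]
    by_cases hx : x ∈ S
    · rw [Nf_pos L₁ L₂ S hx]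
      refine le_trans ?_ (hco₁ _)
      gcongr
      exact min_le_left _ _
    · rw [Nf_neg L₁ L₂ S hx]
      refine le_trans ?_ (hco₂ _)
      gcongr
      exact min_le_right _ _
  set K := (G0 m).topologicalClosure with hK
  have hKc : IsClosed (K : Set (Lp (VV m) 2 mu)) := (G0 m).isClosed_topologicalClosure
  have hGK : ∀ {u : (Fin 2 → ℝ) → (Fin m → ℝ)} (hu : Adm u), (gr_memLp hu).toLp _ ∈ K :=
    fun hu => (G0 m).le_topologicalClosure (mem_G0 hu)
  obtain ⟨W, hW⟩ := hilb T (min c₁ c₂) (lt_min hc₁ hc₂) hTco K hKc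
  -- the effective tensor
  let en : Fin 2 → Fin m → Mt m := fun i α => Matrix.single i α (1 : ℝ)
  let R : Mt m →ₗ[ℝ] Lp (VV m) 2 mu :=
    (T : Lp (VV m) 2 mu →ₗ[ℝ] Lp (VV m) 2 mu) ∘ₗ (LinearMap.id + W) ∘ₗ cs
  have hR : ∀ E, R E = T (cs E + W (cs E)) := fun E => rfl
  let Ls : Mt m →ₗ[ℝ] Mt m :=
    { toFun := fun E => Matrix.of fun i α => ⟪cs (en i α), R E⟫_ℝ
      map_add' := by
        intro E E'
        ext i α
        simp only [Matrix.of_apply, Matrix.add_apply, map_add, inner_add_right]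
      map_smul' := by
        intro c E
        ext i α
        simp only [Matrix.of_apply, Matrix.smul_apply, map_smul, RingHom.id_apply,
          real_inner_smul_right, smul_eq_mul] }
  have hLs : ∀ E i α, Ls E i α = ⟪cs (en i α), R E⟫_ℝ := fun E i α => rfl
  have hen : ∀ (i : Fin 2) (α : Fin m) (v : VV m), ⟪tv (en i α), v⟫_ℝ = v (i, α) := by
    intro i α v
    obtain ⟨A, rfl⟩ := tv.surjective v
    rw [inner_tv, tv_apply]
    unfold tp
    rw [Matrix.trace_mul_comm, ← Matrix.trace_transpose, Matrix.transpose_mul,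
      Matrix.transpose_transpose, Matrix.trace_mul_comm]
    simp [en, Matrix.trace_mul_single]
  refine ⟨Ls, ?_, ?_⟩
  · intro E₀
    set h := cs E₀ + W (cs E₀) with hh
    have hhm := Lp.memLp h
    have hRE : R E₀ = T h := hR E₀
    have hTh := TT_coe L₁ L₂ hS.1 h
    refine ⟨fun x => tv.symm (h x), ?_, ?_, ?_, ?_⟩
    · intro i α
      exact (EuclideanSpace.proj (𝕜 := ℝ) (i, α) : VV m →L[ℝ] ℝ).comp_memLp' hhm
    · have hw : W (cs E₀) ∈ closure (G0 m : Set (Lp (VV m) 2 mu)) := (hW (cs E₀)).1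
      obtain ⟨s, hs, hlim⟩ := mem_closure_iff_seq_limit.1 hw
      choose u hu hsu using hs
      refine ⟨u, hu, ?_⟩
      have e1 : ∀ k, ∫ x in cube, tp (tv.symm (h x) - E₀ - gr (u k) x)
          (tv.symm (h x) - E₀ - gr (u k) x) = ‖W (cs E₀) - s k‖ * ‖W (cs E₀) - s k‖ := by
        intro k
        rw [← real_inner_self_eq_norm_mul_norm, L2.inner_def]
        refine integral_congr_ae ?_
        filter_upwards [Lp.coeFn_sub (W (cs E₀)) (s k), Lp.coeFn_add (cs E₀) (W (cs E₀)),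
          cs_coe E₀, hsu k] with x a1 a2 a3 a4
        rw [a1, ← inner_tv]
        have a5 : tv (tv.symm (h x) - E₀ - gr (u k) x) = (W (cs E₀)) x - (s k) x := by
          rw [map_sub, map_sub, tv.apply_symm_apply, hh, a2, a4, Pi.add_apply, a3]
          abel
        rw [a5]
        rfl
      simp only [e1]
      have e2 : Filter.Tendsto (fun k => W (cs E₀) - s k) Filter.atTop (𝓝 0) := by
        have := (tendsto_const_nhds (x := W (cs E₀))).sub hlim
        rwa [sub_self] at this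
      have e3 := (e2.norm.mul e2.norm)
      rw [norm_zero, mul_zero] at e3
      exact e3
    · intro φ hφ
      have e1 := (hW (cs E₀)).2 _ (hGK hφ)
      rw [← e1, L2.inner_def]
      refine integral_congr_ae ?_
      filter_upwards [hTh, (gr_memLp hφ).coeFn_toLp] with x a1 a2
      have a3 : (T (cs E₀ + W (cs E₀))) x = Nf L₁ L₂ S x (h x) := a1
      rw [a3, a2]
      unfold Nf
      rw [cL_apply, inner_tv]
    · intro i α
      rw [hLs, hRE, L2.inner_def]
      refine integral_congr_ae ?_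
      filter_upwards [hTh, cs_coe (en i α)] with x a1 a2
      have a3 : (T h) x = Nf L₁ L₂ S x (h x) := a1
      rw [a2, a3, hen]
      unfold Nf
      rw [cL_apply, tv_apply]
  · intro E₀ u hu
    set h := cs E₀ + W (cs E₀) with hh
    have hRE : R E₀ = T h := hR E₀
    set g := (gr_memLp hu).toLp _ with hg
    -- left side
    have e1 : tp E₀ (Ls E₀) = ⟪cs E₀, T h⟫_ℝ := by
      have a1 : tp E₀ (Ls E₀) = ∑ i, ∑ α, E₀ i α * Ls E₀ i α := by
        unfold tp
        rw [Matrix.trace]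
        refine Finset.sum_congr rfl fun i _ => ?_
        rw [Matrix.diag_apply, Matrix.mul_apply]
        rfl
      have a2 : cs E₀ = ∑ i, ∑ α, E₀ i α • cs (en i α) := by
        have a3 : E₀ = ∑ i, ∑ α, E₀ i α • en i α := by
          conv_lhs => rw [Matrix.matrix_eq_sum_single E₀]
          refine Finset.sum_congr rfl fun i _ => Finset.sum_congr rfl fun α _ => ?_
          simp [en]
        conv_lhs => rw [a3]
        rw [map_sum]
        refine Finset.sum_congr rfl fun i _ => ?_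
        rw [map_sum]
        refine Finset.sum_congr rfl fun α _ => ?_
        rw [map_smul]
      rw [a1]
      conv_rhs => rw [a2]
      rw [sum_inner]
      refine Finset.sum_congr rfl fun i _ => ?_
      rw [sum_inner]
      refine Finset.sum_congr rfl fun α _ => ?_
      rw [real_inner_smul_left, hLs, hRE]
    have horth : ∀ v ∈ K, ⟪T h, v⟫_ℝ = 0 := (hW (cs E₀)).2
    have hwK := (hW (cs E₀)).1
    have hgK : g ∈ K := hGK hu
    have e2 : ⟪cs E₀, T h⟫_ℝ = ⟪T h, h⟫_ℝ := by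
      rw [real_inner_comm, hh, inner_add_right, ← hh, horth _ hwK, add_zero]
    -- right side
    have e3 : ∫ x in cube, tp (E₀ + gr u x) (loc L₁ L₂ S x (E₀ + gr u x)) =
        ⟪T (cs E₀ + g), cs E₀ + g⟫_ℝ := by
      rw [real_inner_comm, L2.inner_def]
      refine integral_congr_ae ?_
      filter_upwards [TT_coe L₁ L₂ hS.1 (cs E₀ + g), Lp.coeFn_add (cs E₀) g, cs_coe E₀,
        (gr_memLp hu).coeFn_toLp] with x a1 a2 a3 a4
      have a5 : (T (cs E₀ + g)) x = Nf L₁ L₂ S x ((cs E₀ + g) x) := a1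
      have a6 : (cs E₀ + g) x = tv (E₀ + gr u x) := by
        rw [a2, Pi.add_apply, a3, hg, a4, map_add]
      rw [a5, a6]
      unfold Nf
      rw [cL_apply, inner_tv, tv.symm_apply_apply]
    rw [e1, e2, e3]
    have e4 : cs E₀ + g = h + (g - W (cs E₀)) := by rw [hh]; abel
    have hd : g - W (cs E₀) ∈ K := K.sub_mem hgK hwK
    have e7 : ∀ d ∈ K, ⟪T (h + d), h + d⟫_ℝ = ⟪T h, h⟫_ℝ + ⟪T d, d⟫_ℝ := by
      intro d hd'
      have b1 : T (h + d) = T h + T d := map_add T h d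
      rw [b1, inner_add_left (T h) (T d) (h + d), inner_add_right (T h) h d,
        inner_add_right (T d) h d, horth _ hd', hTsymm d h, real_inner_comm (T h) d, horth _ hd']
      ring
    rw [e4, e7 _ hd]
    have e5 := hTco (g - W (cs E₀))
    have e6 : 0 ≤ min c₁ c₂ * ‖g - W (cs E₀)‖ * ‖g - W (cs E₀)‖ := by
      have := (lt_min hc₁ hc₂).le
      positivity
    linarith

end Pool.Agent.W540.TW.EFF
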